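import Pool.Agent.Helpers.RE7

set_option autoImplicit false

open MeasureTheory
open scoped ENNReal

namespace Pool.Agent.Results.MP_a5e374_pr.NotNorm

/-- A law `μ` on `ℝ²` is symmetric if `X` and `-X` have the same law. -/
def IsSymmetric (μ : Measure (ℝ × ℝ)) : Prop := μ.map (fun x => -x) = μ

/-- `κ`-concavity for `κ = -∞`: for all Borel `A, B` with `μ A, μ B > 0` and all `0 < t < 1`,
`μ (t A + (1 - t) B) ≥ min (μ A) (μ B)`. -/
def IsMinConcave (μ : Measure (ℝ × ℝ)) : Prop :=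
  ∀ A B : Set (ℝ × ℝ), MeasurableSet A → MeasurableSet B → 0 < μ A → 0 < μ B →
    ∀ t : ℝ, 0 < t → t < 1 →
      min (μ A) (μ B) ≤ μ {z | ∃ a ∈ A, ∃ b ∈ B, z = t • a + (1 - t) • b}

/-- The law of `⟨v, X⟩ = v₁ X₁ + v₂ X₂` when `X` has law `μ`. -/
noncomputable def lawOf (μ : Measure (ℝ × ℝ)) (v : ℝ × ℝ) : Measure ℝ :=
  μ.map fun x => v.1 * x.1 + v.2 * x.2

/-- `∫ f^p` for the density `f` of `ρ`, as an extended number. -/
noncomputable def powInt (p : ℝ) (ρ : Measure ℝ) : ℝ≥0∞ := ∫⁻ x, ρ.rnDeriv volume x ^ p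

/-- `ρ` has a density `f`, and `∫ f^p` is positive and finite, that is, `h_p` is a finite real. -/
def HasFiniteEntropy (p : ℝ) (ρ : Measure ℝ) : Prop :=
  ρ ≪ volume ∧ 0 < powInt p ρ ∧ powInt p ρ < ∞

/-- The Rényi entropy `h_p = (1 / (1 - p)) log ∫ f^p`. -/
noncomputable def renyi (p : ℝ) (ρ : Measure ℝ) : ℝ :=
  1 / (1 - p) * Real.log (powInt p ρ).toReal

/-- The Rényi entropy power `N_p = exp (2 h_p)`. -/
noncomputable def entropyPower (p : ℝ) (ρ : Measure ℝ) : ℝ := Real.exp (2 * renyi p ρ)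

/-- `M_p(0) = 0` and `M_p(v) = N_p(⟨v, X⟩)^(1/2)` for `v ≠ 0`. -/
noncomputable def M (p : ℝ) (μ : Measure (ℝ × ℝ)) (v : ℝ × ℝ) : ℝ :=
  if v = 0 then 0 else Real.sqrt (entropyPower p (lawOf μ v))

/-- There is a symmetric law on `ℝ²`, `κ`-concave with `κ = -∞`, such that for every
`1 < p < ∞` the map `M_p` is finite everywhere and violates the triangle inequality. -/
theorem result : ∃ μ : Measure (ℝ × ℝ), IsProbabilityMeasure μ ∧ IsSymmetric μ ∧
    IsMinConcave μ ∧ ∀ p : ℝ, 1 < p →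
      (∀ v : ℝ × ℝ, v ≠ 0 → HasFiniteEntropy p (lawOf μ v)) ∧
      ∃ u v : ℝ × ℝ, M p μ u + M p μ v < M p μ (u + v) := by
  refine ⟨RE.mu, inferInstance, RE.mu_neg,
    fun A B hA hB _ _ t h0 h1 => RE.mu_concave hA hB h0 h1, fun p hp => ⟨fun v hv => ?_, ?_⟩⟩
  · exact ⟨RE.marg_ac hv, RE.pow_finite hp hv⟩
  · have hM : ∀ v : ℝ × ℝ, v ≠ 0 → M p RE.mu v = Real.exp (RE.renyi p (RE.marg RE.mu v)) := by
      intro v hv
      rw [M, if_neg hv, entropyPower, two_mul, Real.exp_add,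
        Real.sqrt_mul_self (Real.exp_pos _).le]
      rfl
    obtain ⟨e, he, h⟩ := RE.violation hp
    refine ⟨(1, 0), (0, e), ?_⟩
    have h1 : ((1 : ℝ), (0 : ℝ)) ≠ 0 := fun h => by simpa using congrArg Prod.fst h
    have h2 : ((0 : ℝ), e) ≠ 0 := fun h => by
      have := congrArg Prod.snd h
      simp only [Prod.snd_zero] at this
      linarith
    have h3 : ((1 : ℝ), e) ≠ 0 := fun h => by simpa using congrArg Prod.fst h
    have h4 : ((1 : ℝ), (0 : ℝ)) + ((0 : ℝ), e) = (1, e) := by simp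
    rw [h4, hM _ h1, hM _ h2, hM _ h3]
    exact h

end Pool.Agent.Results.MP_a5e374_pr.NotNorm
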